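import Pool.Agent.LibHFG.Sanity

namespace Pool.Agent.Results.MP_da1489_an.AllRadiiHFG

open Pool.Agent.LibHFG

/-- For all `n ≥ 1`, `0 < r < ∞` and `q` with `|q| = 1`, the quantum ball algebra
`𝒪_q(𝔹^n_r)` is holomorphically finitely generated. -/
theorem result (n : ℕ) (hn : 0 < n) (r : ℝ) [hr : Fact (0 < r)] (q : Circle) :
    IsHFG (QuantumBall n r q) :=
  isHFG_quantumBall hn

end Pool.Agent.Results.MP_da1489_an.AllRadiiHFG
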